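import Mathlib

/-! Sequences of primes in which every term extends the one before by a digit in base seven. -/

set_option autoImplicit false

namespace Pool.Agent.P.MP_7b3100_nt.B7

/-- a walk along large primes that appends one digit in base seven at each step -/
structure Sq (y : ℕ → ℤ) : Prop where
  dv : ∀ n, y n = y (n + 1) / 7
  pr : ∀ n, (y n).natAbs.Prime
  big : ∀ n, 31 < (y n).natAbs

variable {y : ℕ → ℤ}

lemma Sq.dvm (h : Sq y) (n m : ℕ) : y n = y (n + m) / 7 ^ m := by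
  induction m with
  | zero => simp
  | succ m ih =>
    rw [ih, h.dv (n + m), Int.ediv_ediv_of_nonneg (by norm_num), pow_succ', add_assoc]

lemma Sq.mono (h : Sq y) : StrictMono fun n => (y n).natAbs := by
  refine strictMono_nat_of_lt_succ fun n => ?_
  have h1 := h.dv n
  have h2 := h.big n
  omega

lemma Sq.ndvd (h : Sq y) {q : ℕ} (h2 : 2 ≤ q) (h31 : q ≤ 31) (n : ℕ) : ¬ (q : ℤ) ∣ y n := by
  intro hd
  have := (h.pr n).eq_one_or_self_of_dvd q (Int.natCast_dvd.1 hd)
  have := h.big n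
  omega

/-- Fermat's argument: the digits are not periodic -/
lemma Sq.no_period (h : Sq y) {t L : ℕ} {E : ℤ} (hL : 0 < L)
    (hs : ∀ k, y (t + k * L + L) = 7 ^ L * y (t + k * L) + E) : False := by
  set p := (y t).natAbs with hp
  have hpp : p.Prime := h.pr t
  have : Fact p.Prime := ⟨hpp⟩
  have h7 : (7 : ZMod p) ≠ 0 := by
    intro h0
    have h1 : ((7 : ℕ) : ZMod p) = 0 := by exact_mod_cast h0
    have h2 := Nat.le_of_dvd (by norm_num) ((ZMod.natCast_eq_zero_iff _ _).1 h1)
    have := h.big t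
    omega
  let f : ZMod p → ZMod p := fun x => 7 ^ L * x + (E : ZMod p)
  have hf : Function.Injective f := fun a b hab =>
    mul_left_cancel₀ (pow_ne_zero L h7) (add_right_cancel hab)
  have h0 : ((y t : ℤ) : ZMod p) = 0 :=
    (ZMod.intCast_zmod_eq_zero_iff_dvd _ _).2 (Int.natAbs_dvd.2 dvd_rfl)
  have hk : ∀ k, ((y (t + k * L) : ℤ) : ZMod p) = f^[k] 0 := by
    intro k
    induction k with
    | zero => simpa using h0
    | succ k ih =>
      rw [Function.iterate_succ_apply', ← ih, add_mul, one_mul, ← add_assoc, hs k]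
      simp [f]
  obtain ⟨K, hK, hper⟩ := hf.mem_periodicPts (0 : ZMod p)
  have h1 : (p : ℤ) ∣ y (t + K * L) :=
    (ZMod.intCast_zmod_eq_zero_iff_dvd _ _).1 ((hk K).trans hper)
  have h2 := (Nat.prime_dvd_prime_iff_eq hpp (h.pr _)).1 (Int.natCast_dvd.1 h1)
  have h3 : t < t + K * L := Nat.lt_add_of_pos_right (Nat.mul_pos hK hL)
  exact (h.mono h3).ne h2

/-- the walk is not driven by a finite deterministic machine -/
lemma Sq.no_det (h : Sq y) {σ : Type} {S : Set σ} (hS : S.Finite) {f : σ → σ} {l D : σ → ℕ}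
    {P : ℕ → σ → Prop} {t0 : ℕ} {s0 : σ} (h0 : P t0 s0)
    (hP : ∀ t s, P t s → s ∈ S ∧ 0 < l s ∧ y (t + l s) = 7 ^ l s * y t + D s ∧
      P (t + l s) (f s)) : False := by
  have key : ∀ m s, ∃ (L : ℕ) (E : ℤ), ∀ t, P t s →
      (0 < m → 0 < L) ∧ y (t + L) = 7 ^ L * y t + E ∧ P (t + L) (f^[m] s) := by
    intro m
    induction m with
    | zero => exact fun s => ⟨0, 0, fun t ht => by simpa using ht⟩
    | succ m ih =>
      intro s
      obtain ⟨L, E, hh⟩ := ih (f s)
      refine ⟨l s + L, 7 ^ L * D s + E, fun t ht => ?_⟩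
      obtain ⟨-, h1, h2, h3⟩ := hP t s ht
      obtain ⟨-, h4, h5⟩ := hh _ h3
      refine ⟨fun _ => by omega, ?_, ?_⟩
      · rw [← add_assoc, h4, h2, pow_add]; ring
      · rw [← add_assoc]; exact h5
  have hm : ∀ k, f^[k] s0 ∈ S := fun k => by
    obtain ⟨L, E, hh⟩ := key k s0
    exact (hP _ _ (hh _ h0).2.2).1
  obtain ⟨i, j, hij, he⟩ := hS.exists_lt_map_eq_of_forall_mem hm
  obtain ⟨L1, E1, hh1⟩ := key i s0
  obtain ⟨L, E, hh⟩ := key (j - i) (f^[i] s0)
  have e : f^[j - i] (f^[i] s0) = f^[i] s0 := by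
    rw [← Function.iterate_add_apply, Nat.sub_add_cancel hij.le, he]
  rw [e] at hh
  have h1 := (hh1 _ h0).2.2
  have hk : ∀ k, P (t0 + L1 + k * L) (f^[i] s0) := by
    intro k
    induction k with
    | zero => simpa using h1
    | succ k ih => rw [add_mul, one_mul, ← add_assoc]; exact (hh _ ih).2.2
  exact h.no_period ((hh _ h1).1 (by omega)) fun k => (hh _ (hk k)).2.1

/-- the residue of a term -/
def res (y : ℕ → ℤ) (q t : ℕ) : ℕ := (y t % q).toNat

lemma res_cast {q : ℕ} (hq : 0 < q) (t : ℕ) : (res y q t : ℤ) = y t % q :=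
  Int.toNat_of_nonneg (Int.emod_nonneg _ (by exact_mod_cast hq.ne'))

lemma res_lt {q : ℕ} (hq : 0 < q) (t : ℕ) : res y q t < q := by
  have h1 := res_cast (y := y) hq t
  have h2 := Int.emod_lt_of_pos (y t) (show (0 : ℤ) < q by exact_mod_cast hq)
  omega

lemma Sq.res_pos (h : Sq y) {q : ℕ} (h2 : 2 ≤ q) (h31 : q ≤ 31) (t : ℕ) : 0 < res y q t := by
  by_contra h0
  have h1 := res_cast (y := y) (show 0 < q by omega) t
  rw [show res y q t = 0 by omega] at h1
  exact h.ndvd h2 h31 t (Int.dvd_of_emod_eq_zero (by exact_mod_cast h1.symm))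

lemma res_step {q t l D : ℕ} (hq : 0 < q) (hs : y (t + l) = 7 ^ l * y t + D) :
    res y q (t + l) = (7 ^ l * res y q t + D) % q := by
  have : ((res y q (t + l) : ℕ) : ℤ) = (((7 ^ l * res y q t + D) % q : ℕ) : ℤ) := by
    push_cast
    rw [res_cast hq, res_cast hq, hs]
    exact ((Int.mod_modEq (y t) q).symm.mul_left _).add_right _
  exact_mod_cast this

/-- the end residue of a step is not one of the dead residues -/
lemma Sq.alive (h : Sq y) {q t l D : ℕ} (h2 : 2 ≤ q) (h31 : q ≤ 31) (h7 : Nat.Coprime q 7)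
    (hs : y (t + l) = 7 ^ l * y t + D) (m : ℕ) : res y q (t + l) ≠ D % 7 ^ m % q := by
  have hq : 0 < q := by omega
  have key : ∀ m ≤ l, res y q (t + l) ≠ D % 7 ^ m % q := by
    intro m hm he
    obtain ⟨k, rfl⟩ := Nat.exists_eq_add_of_le' hm
    have e1 := h.dvm (t + k) m
    have e2 : y (t + k + m) % 7 ^ m = (D : ℤ) % 7 ^ m := by
      rw [add_assoc, hs, pow_add, mul_comm ((7 : ℤ) ^ k), mul_assoc, Int.mul_add_emod_self_left]
    have e3 := Int.mul_ediv_add_emod (y (t + k + m)) (7 ^ m)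
    rw [← e1, e2] at e3
    have e4 : y (t + k + m) % q = ((D : ℤ) % 7 ^ m) % q := by
      rw [add_assoc, ← res_cast hq, he]; push_cast; rfl
    have e5 : (q : ℤ) ∣ 7 ^ m * y (t + k) := by
      have := Int.ModEq.dvd e4.symm
      rwa [← e3, add_sub_cancel_right] at this
    have hc : IsCoprime (q : ℤ) (7 ^ m) := by
      have := Nat.isCoprime_iff_coprime.2 (h7.pow_right m)
      exact_mod_cast this
    exact h.ndvd h2 h31 _ (hc.dvd_of_dvd_mul_left e5)
  rcases le_total m l with hm | hm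
  · exact key m hm
  · have e1 := h.dvm t l
    have e3 := Int.mul_ediv_add_emod (y (t + l)) (7 ^ l)
    have e4 := Int.emod_lt_of_pos (y (t + l)) (show (0 : ℤ) < 7 ^ l by positivity)
    rw [← e1] at e3
    have hD : D < 7 ^ l := by
      have : (D : ℤ) < 7 ^ l := by omega
      exact_mod_cast this
    have := key l le_rfl
    rwa [Nat.mod_eq_of_lt hD, ← Nat.mod_eq_of_lt
      (hD.trans_le (Nat.pow_le_pow_right (by norm_num) hm))] at this

end Pool.Agent.P.MP_7b3100_nt.B7
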