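import Pool.Agent.P.MP_7b3100_nt.B7.Chk
import Pool.Agent.P.MP_7b3100_nt.B7.Seq

/-! What the first pass of the checker proves about a node. -/

set_option autoImplicit false

namespace Pool.Agent.P.MP_7b3100_nt.B7

lemma force_eq {α : Type} (x : ℕ) (k : ℕ → α) : force x k = k x := by cases x <;> rfl

lemma brec {x b : Bool} (h : (Bool.rec false x b : Bool) = true) : b = true ∧ x = true := by
  cases b
  · exact Bool.noConfusion h
  · exact ⟨rfl, h⟩

lemma loop_sound {f : ℕ → Bool} {lo n : ℕ} (h : loop f lo n = true) {i : ℕ} (h1 : lo ≤ i)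
    (h2 : i < lo + n) : f i = true := by
  induction n with
  | zero => omega
  | succ n ih =>
    have e : (Bool.rec false (loop f lo n) (force (lo + n) f) : Bool) = true := h
    obtain ⟨a, b⟩ := brec e
    rw [force_eq] at a
    rcases Nat.lt_succ_iff_lt_or_eq.1 (show i < lo + n + 1 from h2) with h3 | h3
    · exact ih b h3
    · rw [h3]; exact a

/-- length of an edge -/
def ln (R c : ℕ) : ℕ := (R >>> (32 + 10 * c)) % 1024

/-- target of an edge -/
def tg (R c : ℕ) : ℕ := (R >>> (16 * c)) % 65536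

/-- value of the word on an edge -/
noncomputable def dv (R c : ℕ) : ℕ :=
  Nat.rec ((R >>> 288) % 7 ^ ln R c) (fun _ _ => (R >>> 288) / 7 ^ ((R >>> 32) % 1024)) c

/-- rank and direction field of a residue -/
def fl (R r : ℕ) : ℕ := (R >>> (96 + 6 * r)) % 64

/-- origin of a node -/
def og (R : ℕ) : ℕ := (R >>> 68) % 2097152

lemma bit15 {x i : ℕ} (h : (15 <<< (6 * x)).testBit i = true) : ∃ j < 4, i = 6 * x + j := by
  rw [Nat.testBit_shiftLeft, Bool.and_eq_true, decide_eq_true_eq] at h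
  refine ⟨i - 6 * x, ?_, by omega⟩
  by_contra hc
  rw [Nat.testBit_lt_two_pow (lt_of_lt_of_le (by norm_num : 15 < 2 ^ 4)
    (Nat.pow_le_pow_right (by norm_num) (by omega)))] at h
  exact Bool.noConfusion h.2

lemma km_bit {q a c n i : ℕ} (h : (km q a c n).testBit i = true) :
    ∃ b < n, ∃ j < 4, i = 6 * (a * (c % 7 ^ b) % q) + j := by
  induction n with
  | zero => exact absurd h (by simp [km])
  | succ n ih =>
    have e : km q a c (n + 1) = km q a c n ||| (15 <<< (6 * (a * (c % 7 ^ n) % q))) := rfl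
    rw [e, Nat.testBit_or, Bool.or_eq_true] at h
    rcases h with h | h
    · obtain ⟨b, hb, h'⟩ := ih h
      exact ⟨b, by omega, h'⟩
    · exact ⟨n, by omega, bit15 h⟩

lemma kill_bit {q w D n i : ℕ} (h : (kill q w D n).testBit i = true) :
    ∃ m x, ∃ j < 4, i = 6 * x + j ∧ x % q = D % 7 ^ m % q := by
  induction n with
  | zero => exact absurd h (by simp [kill])
  | succ n ih =>
    have e : kill q w D (n + 1) = kill q w D n ||| ((force (7 ^ (w * n) % q) fun a =>
      force (D / 7 ^ (w * n) % 7 ^ w) fun c => km q a c w) <<< (6 * (D % 7 ^ (w * n) % q))) := rfl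
    rw [e, Nat.testBit_or, Bool.or_eq_true, force_eq, force_eq] at h
    rcases h with h | h
    · exact ih h
    · rw [Nat.testBit_shiftLeft, Bool.and_eq_true, decide_eq_true_eq] at h
      obtain ⟨b, hb, j, hj, h2⟩ := km_bit h.2
      refine ⟨w * n + b, D % 7 ^ (w * n) % q +
        7 ^ (w * n) % q * (D / 7 ^ (w * n) % 7 ^ w % 7 ^ b) % q, j, hj, by omega, ?_⟩
      rw [pow_add, Nat.mod_mul, Nat.mod_mod_of_dvd _ (pow_dvd_pow 7 hb.le), ← Nat.add_mod,
        Nat.add_mod, Nat.mod_mul_mod, ← Nat.add_mod]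

lemma tw_eq {G : ℕ → ℕ} {q w t D n s : ℕ} (hs : s < q) (hq : q ≤ 31)
    (h : ∀ m, s ≠ D % 7 ^ m % q) :
    (tw G q t (kill q w D n) >>> (6 * s)) % 16 = fl (G t) s / 4 := by
  have e : tw G q t (kill q w D n) = (kill q w D n ||| (kill q w D n >>> (6 * q))) |||
      force t fun t => (G t >>> 98) % 1569275433846670190958947355801916604025588861116008628224 :=
    rfl
  have e2 : fl (G t) s / 4 = (G t >>> (98 + 6 * s)) % 16 := by
    rw [fl, show 98 + 6 * s = 96 + 6 * s + 2 by omega, Nat.shiftRight_add _ _ 2,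
      Nat.shiftRight_eq_div_pow _ 2]
    omega
  rw [e, e2, force_eq, show 1569275433846670190958947355801916604025588861116008628224 = 2 ^ 190
    by norm_num, show 16 = 2 ^ 4 by norm_num]
  refine Nat.eq_of_testBit_eq fun i => ?_
  simp only [Nat.testBit_mod_two_pow, Nat.testBit_shiftRight, Nat.testBit_or]
  by_cases hi : i < 4
  · have h1 : (kill q w D n).testBit (6 * s + i) = false := by
      by_contra hc
      obtain ⟨m, x, j, hj, h1, h2⟩ := kill_bit (Bool.of_not_eq_false hc)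
      obtain rfl : s = x := by omega
      exact h m (by rw [← h2, Nat.mod_eq_of_lt hs])
    have h2 : (kill q w D n).testBit (6 * q + (6 * s + i)) = false := by
      by_contra hc
      obtain ⟨m, x, j, hj, h1, h2⟩ := kill_bit (Bool.of_not_eq_false hc)
      obtain rfl : x = q + s := by omega
      exact h m (by rw [← h2, Nat.add_mod_left, Nat.mod_eq_of_lt hs])
    rw [h1, h2, decide_eq_true (show 6 * s + i < 190 by omega), add_assoc]
    simp
  · simp [hi]

lemma cover_sound {H : ℕ → ℕ} {o code n : ℕ} (h : cover H o code n = true) :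
    ∃ j < n, og (H (o + j)) = code := by
  induction n with
  | zero => exact Bool.noConfusion h
  | succ n ih =>
    have e : (Bool.rec (cover H o code n) true
      (force (o + n) fun i => Nat.beq (og (H i)) code) : Bool) = true := h
    rw [force_eq] at e
    cases hb : Nat.beq (og (H (o + n))) code
    · rw [hb] at e
      obtain ⟨j, hj, h'⟩ := ih e
      exact ⟨j, by omega, h'⟩
    · exact ⟨n, by omega, Nat.eq_of_beq_eq_true hb⟩

lemma rank1_sound {f g1 g2 : ℕ} {x b : Bool} (h : rank1 f g1 g2 x b = true) :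
    f / 4 + f % 2 ≤ g1 ∧ (f + 2) / 4 ≤ g2 ∧ (f % 4 = 0 → x = true) ∧ b = true := by
  obtain ⟨h1, h2⟩ := brec h
  obtain ⟨h3, h4⟩ := brec h2
  refine ⟨Nat.le_of_ble_eq_true h1, Nat.le_of_ble_eq_true h3, ?_⟩
  have h5 : (Nat.rec (Bool.rec false b x) (fun _ _ => b) (f % 4) : Bool) = true := h4
  cases he : f % 4 with
  | zero => rw [he] at h5; exact ⟨fun _ => (brec h5).1, (brec h5).2⟩
  | succ k => rw [he] at h5; exact ⟨fun h0 => by omega, h5⟩

lemma ranks_sound {H : ℕ → ℕ} {q6 u o k V W1 a1 b1 W2 a2 b2 n : ℕ}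
    (h : ranks H q6 u o k V W1 a1 b1 W2 a2 b2 n = true) {r : ℕ} (hr : r < n) :
    (V >>> (6 * r)) % 64 / 4 + (V >>> (6 * r)) % 64 % 2 ≤ (W1 >>> ((a1 * r + b1) % q6)) % 16 ∧
    ((V >>> (6 * r)) % 64 + 2) / 4 ≤ (W2 >>> ((a2 * r + b2) % q6)) % 16 ∧
    ((V >>> (6 * r)) % 64 % 4 = 0 → cover H o (u + 65536 * (r + 1)) k = true) := by
  induction n with
  | zero => omega
  | succ n ih =>
    have e : rank1 ((V >>> (6 * n)) % 64) ((W1 >>> ((a1 * n + b1) % q6)) % 16)
      ((W2 >>> ((a2 * n + b2) % q6)) % 16) (cover H o (u + 65536 * (n + 1)) k)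
      (ranks H q6 u o k V W1 a1 b1 W2 a2 b2 n) = true := h
    obtain ⟨h1, h2, h3, h4⟩ := rank1_sound e
    rcases Nat.lt_succ_iff_lt_or_eq.1 hr with h5 | h5
    · exact ih h4 h5
    · rw [h5]; exact ⟨h1, h2, h3⟩

lemma idx_eq (q P D r : ℕ) :
    (6 * (P % q) * r + (6 * (P % q) + 6 * (D % q))) % (6 * q) = 6 * ((P * (r + 1) + D) % q) := by
  rw [show 6 * (P % q) * r + (6 * (P % q) + 6 * (D % q)) = 6 * (P % q * (r + 1) + D % q) by ring,
    Nat.mul_mod_mul_left, Nat.add_mod_mod, Nat.add_mod, Nat.mod_mul_mod, ← Nat.add_mod]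

lemma fl_eq (R : ℕ) {r : ℕ} (hr : r < 31) :
    (((R >>> 102) % 98079714615416886934934209737619787751599303819750539264) >>> (6 * r)) % 64 =
      fl R (r + 1) := by
  rw [fl, show 98079714615416886934934209737619787751599303819750539264 = 2 ^ 186 by norm_num,
    show 64 = 2 ^ 6 by norm_num]
  refine Nat.eq_of_testBit_eq fun i => ?_
  simp only [Nat.testBit_mod_two_pow, Nat.testBit_shiftRight]
  by_cases hi : i < 6
  · rw [decide_eq_true (show 6 * r + i < 186 by omega),
      show 102 + (6 * r + i) = 96 + 6 * (r + 1) + i by omega]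
    simp
  · simp [hi]

/-- the conditions at the node `u` and the residue `r` -/
def NodeOK (G H : ℕ → ℕ) (q n' u r : ℕ) : Prop :=
  (∀ c < 2, (∀ m, (7 ^ ln (G u) c * r + dv (G u) c) % q ≠ dv (G u) c % 7 ^ m % q) →
    fl (G u) r / 4 + fl (G u) r / 2 ^ c % 2 ≤
      fl (G (tg (G u) c)) ((7 ^ ln (G u) c * r + dv (G u) c) % q) / 4) ∧
  (fl (G u) r % 4 = 0 → ∃ U < n', og (H U) = u + 65536 * r)

lemma nodeA_sound {G H : ℕ → ℕ} {q w n' u : ℕ} (hq : q ≤ 31) (h : nodeA G H q w n' u = true)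
    {r : ℕ} (h0 : 0 < r) (hr : r < q) : NodeOK G H q n' u r := by
  obtain ⟨r, rfl⟩ : ∃ r', r = r' + 1 := ⟨r - 1, by omega⟩
  have e : (Bool.rec false (ranks H (6 * q) u ((G u >>> 52) % 65536) ((G u >>> 89) % 32)
      ((G u >>> 102) % 98079714615416886934934209737619787751599303819750539264)
      (tw G q (tg (G u) 0) (kill q w (dv (G u) 0) (ln (G u) 0 / w + 1)))
      (6 * (7 ^ ln (G u) 0 % q)) (6 * (7 ^ ln (G u) 0 % q) + 6 * (dv (G u) 0 % q))
      (tw G q (tg (G u) 1) (kill q w (dv (G u) 1) (ln (G u) 1 / w + 1)))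
      (6 * (7 ^ ln (G u) 1 % q)) (6 * (7 ^ ln (G u) 1 % q) + 6 * (dv (G u) 1 % q)) (q - 1))
      (Nat.ble ((G u >>> 52) % 65536 + (G u >>> 89) % 32) n') : Bool) = true := h
  obtain ⟨h1, h2⟩ := brec e
  obtain ⟨h3, h4, h5⟩ := ranks_sound h2 (show r < q - 1 by omega)
  rw [fl_eq _ (by omega)] at h3 h4 h5
  rw [idx_eq] at h3 h4
  have hq0 : 0 < q := by omega
  refine ⟨fun c hc hk => ?_, fun hf => ?_⟩
  · obtain rfl | rfl : c = 0 ∨ c = 1 := by omega
    · rw [tw_eq (Nat.mod_lt _ hq0) hq hk] at h3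
      simpa using h3
    · rw [tw_eq (Nat.mod_lt _ hq0) hq hk] at h4
      omega
  · obtain ⟨j, hj, h6⟩ := cover_sound (h5 hf)
    have := Nat.le_of_ble_eq_true h1
    exact ⟨_, by omega, h6⟩

end Pool.Agent.P.MP_7b3100_nt.B7
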