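import Mathlib.Init

/-! Kernel checker for labelled graphs that describe the digit words in base seven whose initial
values avoid the multiples of small primes. -/

set_option autoImplicit false

namespace Pool.Agent.P.MP_7b3100_nt.B7

/-- evaluate a number before passing it on -/
noncomputable def force {α : Type} (x : Nat) (k : Nat → α) : α :=
  Nat.rec (k 0) (fun n _ => k (Nat.succ n)) x

/-- inner node of a table -/
noncomputable def q4 (m1 m2 m3 : Nat) (a b c d : Nat → Nat) (i : Nat) : Nat :=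
  Bool.rec (Bool.rec (d i) (c i) (Nat.ble i m3)) (Bool.rec (b i) (a i) (Nat.ble i m1))
    (Nat.ble i m2)

/-- lowest node of a table -/
noncomputable def l4 (m1 m2 m3 a b c d i : Nat) : Nat :=
  Bool.rec (Bool.rec d c (Nat.ble i m3)) (Bool.rec b a (Nat.ble i m1)) (Nat.ble i m2)

/-- empty table -/
noncomputable def z0 (_ : Nat) : Nat := 0

/-- the fields of the residues `a * (c % 7 ^ b) % q`, `b < n` -/
noncomputable def km (q a c n : Nat) : Nat :=
  Nat.rec 0 (fun b K => Nat.lor K
    (Nat.shiftLeft 15 (Nat.mul 6 (Nat.mod (Nat.mul a (Nat.mod c (Nat.pow 7 b))) q)))) n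

/-- one block of `w` digits, starting at the place of `P` -/
noncomputable def kb (q w D P : Nat) : Nat :=
  Nat.shiftLeft (force (Nat.mod P q) fun a =>
      force (Nat.mod (Nat.div D P) (Nat.pow 7 w)) fun c => km q a c w)
    (Nat.mul 6 (Nat.mod (Nat.mod D P) q))

/-- the fields of the residues `D % 7 ^ m % q`, `m < w * n`, up to a shift by `q` -/
noncomputable def kill (q w D n : Nat) : Nat :=
  Nat.rec 0 (fun j K => Nat.lor K (kb q w D (Nat.pow 7 (Nat.mul w j)))) n

/-- search for a node of the next graph with a given origin -/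
noncomputable def cover (H : Nat → Nat) (o code n : Nat) : Bool :=
  Nat.rec false (fun j b => Bool.rec b true
    (force (Nat.add o j) fun i => Nat.beq (Nat.mod (Nat.shiftRight (H i) 68) 2097152) code)) n

/-- the rank conditions for one residue -/
noncomputable def rank1 (f g1 g2 : Nat) (x b : Bool) : Bool :=
  Bool.rec false (Bool.rec false (Nat.rec (Bool.rec false b x) (fun _ _ => b) (Nat.mod f 4))
    (Nat.ble (Nat.div (Nat.add f 2) 4) g2)) (Nat.ble (Nat.add (Nat.div f 4) (Nat.mod f 2)) g1)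

/-- the rank conditions for the residues `1, ..., n` -/
noncomputable def ranks (H : Nat → Nat) (q6 u o k V W1 a1 b1 W2 a2 b2 n : Nat) : Bool :=
  Nat.rec true (fun r b => rank1 (Nat.mod (Nat.shiftRight V (Nat.mul 6 r)) 64)
    (Nat.mod (Nat.shiftRight W1 (Nat.mod (Nat.add (Nat.mul a1 r) b1) q6)) 16)
    (Nat.mod (Nat.shiftRight W2 (Nat.mod (Nat.add (Nat.mul a2 r) b2) q6)) 16)
    (cover H o (Nat.add u (Nat.mul 65536 (Nat.succ r))) k) b) n

/-- the rank vector of the target of an edge, with the dead residues filled in -/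
noncomputable def tw (G : Nat → Nat) (q t K : Nat) : Nat :=
  Nat.lor (Nat.lor K (Nat.shiftRight K (Nat.mul 6 q))) (force t fun t =>
    (Nat.mod (Nat.shiftRight (G t) 98) 1569275433846670190958947355801916604025588861116008628224))

/-- all conditions at one node, from the parts of its record -/
noncomputable def nodeA2 (G H : Nat → Nat) (q w n' u t1 t2 l1 l2 o k V D1 D2 a1 a2 : Nat) : Bool :=
  Bool.rec false (ranks H (Nat.mul 6 q) u o k V
      (tw G q t1 (kill q w D1 (Nat.succ (Nat.div l1 w)))) a1 (Nat.add a1 (Nat.mul 6 (Nat.mod D1 q)))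
      (tw G q t2 (kill q w D2 (Nat.succ (Nat.div l2 w)))) a2 (Nat.add a2 (Nat.mul 6 (Nat.mod D2 q)))
      (Nat.pred q))
    (Nat.ble (Nat.add o k) n')

noncomputable def nodeA1 (G H : Nat → Nat) (q w n' u R l1 l2 P : Nat) : Bool :=
  nodeA2 G H q w n' u (Nat.mod R 65536) (Nat.mod (Nat.shiftRight R 16) 65536) l1 l2
    (Nat.mod (Nat.shiftRight R 52) 65536) (Nat.mod (Nat.shiftRight R 89) 32)
    (Nat.mod (Nat.shiftRight R 102) 98079714615416886934934209737619787751599303819750539264)
    (Nat.mod (Nat.shiftRight R 288) P) (Nat.div (Nat.shiftRight R 288) P)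
    (Nat.mul 6 (Nat.mod P q)) (Nat.mul 6 (Nat.mod (Nat.pow 7 l2) q))

/-- all conditions at one node -/
noncomputable def nodeA (G H : Nat → Nat) (q w n' u : Nat) : Bool :=
  nodeA1 G H q w n' u (G u) (Nat.mod (Nat.shiftRight (G u) 32) 1024)
    (Nat.mod (Nat.shiftRight (G u) 42) 1024) (Nat.pow 7 (Nat.mod (Nat.shiftRight (G u) 32) 1024))

/-- the end of one step of a chain -/
noncomputable def chain2 (ih : Nat → Nat → Nat → Nat → Nat → Bool) (oT LT ET v s L E R e : Nat) :
    Bool :=
  Nat.rec (Bool.rec false (Bool.rec false (Nat.beq E ET) (Nat.beq L LT))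
      (Nat.beq (Nat.add v (Nat.mul 65536 s)) oT))
    (fun _ _ => ih R (Nat.mod e 2) s L E) e

noncomputable def chain1 (G : Nat → Nat) (ih : Nat → Nat → Nat → Nat → Nat → Bool)
    (oT LT ET v s L E : Nat) : Bool :=
  chain2 ih oT LT ET v s L E (G v) (Nat.mod (Nat.shiftRight (G v) (Nat.add 96 (Nat.mul 6 s))) 4)

noncomputable def chain0 (G : Nat → Nat) (ih : Nat → Nat → Nat → Nat → Nat → Bool)
    (q oT LT ET R c r L E l P D : Nat) : Bool :=
  force (Nat.mod (Nat.shiftRight R (Nat.mul 16 c)) 65536) fun v =>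
    chain1 G ih oT LT ET v (Nat.mod (Nat.add (Nat.mul P r) D) q) (Nat.add L l)
      (Nat.add (Nat.mul E P) D)

noncomputable def chainl (G : Nat → Nat) (ih : Nat → Nat → Nat → Nat → Nat → Bool)
    (q oT LT ET R c r L E l : Nat) : Bool :=
  chain0 G ih q oT LT ET R c r L E l (Nat.pow 7 l)
    (Nat.rec (Nat.mod (Nat.shiftRight R 288) (Nat.pow 7 l)) (fun _ _ =>
      Nat.div (Nat.shiftRight R 288) (Nat.pow 7 (Nat.mod (Nat.shiftRight R 32) 1024))) c)

/-- follow the forced edges; `c = 1` is the second edge -/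
noncomputable def chain (G : Nat → Nat) (q oT LT ET n : Nat) :
    Nat → Nat → Nat → Nat → Nat → Bool :=
  Nat.rec (fun _ _ _ _ _ => false) (fun _ ih R c r L E => chainl G ih q oT LT ET R c r L E
    (Nat.mod (Nat.shiftRight R (Nat.add 32 (Nat.mul 10 c))) 1024)) n

noncomputable def nodeB1 (G H : Nat → Nat) (q n' R l1 r t1 t2 u : Nat) : Bool :=
  Bool.rec false (Bool.rec false (Bool.rec false
    (chain G q (Nat.mod (Nat.shiftRight (H t1) 68) 2097152) l1
      (Nat.mod (Nat.shiftRight R 288) (Nat.pow 7 l1)) 64 (G u) 0 r 0 0)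
    (chain G q (Nat.mod (Nat.shiftRight (H t2) 68) 2097152) (Nat.mod (Nat.shiftRight R 42) 1024)
      (Nat.div (Nat.shiftRight R 288) (Nat.pow 7 l1)) 64 (G u) 1 r 0 0))
    (Nat.ble (Nat.succ t1) n')) (Nat.ble (Nat.succ t2) n')

/-- the two edges of a node of the next graph -/
noncomputable def nodeB (G H : Nat → Nat) (q n' U : Nat) : Bool :=
  force (Nat.mod (H U) 65536) fun t1 =>
  force (Nat.mod (Nat.shiftRight (H U) 16) 65536) fun t2 =>
  force (Nat.mod (Nat.shiftRight (H U) 68) 65536) fun u =>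
  nodeB1 G H q n' (H U) (Nat.mod (Nat.shiftRight (H U) 32) 1024)
    (Nat.mod (Nat.shiftRight (H U) 84) 32) t1 t2 u

/-- a test for the `n` numbers from `lo` on -/
noncomputable def loop (f : Nat → Bool) (lo n : Nat) : Bool :=
  Nat.rec true (fun i b => Bool.rec false b (force (Nat.add lo i) f)) n

end Pool.Agent.P.MP_7b3100_nt.B7
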