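import Pool.Agent.P.MP_7b3100_nt.B7.D23p0
import Pool.Agent.P.MP_7b3100_nt.B7.D23p1

/-! Data: a graph table. -/

set_option autoImplicit false

namespace Pool.Agent.P.MP_7b3100_nt.B7

noncomputable def G23 : Nat → Nat :=
 q4 (nat_lit 4095) (nat_lit 8191) (nat_lit 12287) (q4 (nat_lit 1023) (nat_lit 2047) (nat_lit 3071) (q4 (nat_lit 255) (nat_lit 511) (nat_lit 767) (G23_0)
 (G23_1)
 (G23_2)
 (G23_3))
 (q4 (nat_lit 1279) (nat_lit 1535) (nat_lit 1791) (G23_4)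
 (G23_5)
 (G23_6)
 (G23_7))
 (q4 (nat_lit 2303) (nat_lit 2559) (nat_lit 2815) (G23_8)
 (G23_9)
 (G23_10)
 (G23_11))
 (q4 (nat_lit 3327) (nat_lit 3583) (nat_lit 3839) (G23_12)
 (G23_13)
 (G23_14)
 (G23_15)))
 (q4 (nat_lit 4351) (nat_lit 4607) (nat_lit 4863) (G23_16)
 (G23_17)
 (z0)
 (z0))
 (z0)
 (z0)


end Pool.Agent.P.MP_7b3100_nt.B7
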