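import Pool.Agent.P.MP_7b3100_nt.B7.D29p0
import Pool.Agent.P.MP_7b3100_nt.B7.D29p1
import Pool.Agent.P.MP_7b3100_nt.B7.D29p2
import Pool.Agent.P.MP_7b3100_nt.B7.D29p3
import Pool.Agent.P.MP_7b3100_nt.B7.D29p4
import Pool.Agent.P.MP_7b3100_nt.B7.D29p5

/-! Data: a graph table. -/

set_option autoImplicit false

namespace Pool.Agent.P.MP_7b3100_nt.B7

noncomputable def G29 : Nat → Nat :=
 q4 (nat_lit 16383) (nat_lit 32767) (nat_lit 49151) (q4 (nat_lit 4095) (nat_lit 8191) (nat_lit 12287) (q4 (nat_lit 1023) (nat_lit 2047) (nat_lit 3071) (q4 (nat_lit 255) (nat_lit 511) (nat_lit 767) (G29_0)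
 (G29_1)
 (G29_2)
 (G29_3))
 (q4 (nat_lit 1279) (nat_lit 1535) (nat_lit 1791) (G29_4)
 (G29_5)
 (G29_6)
 (G29_7))
 (q4 (nat_lit 2303) (nat_lit 2559) (nat_lit 2815) (G29_8)
 (G29_9)
 (G29_10)
 (G29_11))
 (q4 (nat_lit 3327) (nat_lit 3583) (nat_lit 3839) (G29_12)
 (G29_13)
 (G29_14)
 (G29_15)))
 (q4 (nat_lit 5119) (nat_lit 6143) (nat_lit 7167) (q4 (nat_lit 4351) (nat_lit 4607) (nat_lit 4863) (G29_16)
 (G29_17)
 (G29_18)
 (G29_19))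
 (q4 (nat_lit 5375) (nat_lit 5631) (nat_lit 5887) (G29_20)
 (G29_21)
 (G29_22)
 (G29_23))
 (q4 (nat_lit 6399) (nat_lit 6655) (nat_lit 6911) (G29_24)
 (G29_25)
 (G29_26)
 (G29_27))
 (q4 (nat_lit 7423) (nat_lit 7679) (nat_lit 7935) (G29_28)
 (G29_29)
 (G29_30)
 (G29_31)))
 (q4 (nat_lit 9215) (nat_lit 10239) (nat_lit 11263) (q4 (nat_lit 8447) (nat_lit 8703) (nat_lit 8959) (G29_32)
 (G29_33)
 (G29_34)
 (G29_35))
 (q4 (nat_lit 9471) (nat_lit 9727) (nat_lit 9983) (G29_36)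
 (G29_37)
 (G29_38)
 (G29_39))
 (q4 (nat_lit 10495) (nat_lit 10751) (nat_lit 11007) (G29_40)
 (G29_41)
 (G29_42)
 (G29_43))
 (q4 (nat_lit 11519) (nat_lit 11775) (nat_lit 12031) (G29_44)
 (G29_45)
 (G29_46)
 (G29_47)))
 (q4 (nat_lit 13311) (nat_lit 14335) (nat_lit 15359) (q4 (nat_lit 12543) (nat_lit 12799) (nat_lit 13055) (G29_48)
 (G29_49)
 (G29_50)
 (G29_51))
 (q4 (nat_lit 13567) (nat_lit 13823) (nat_lit 14079) (G29_52)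
 (G29_53)
 (G29_54)
 (G29_55))
 (q4 (nat_lit 14591) (nat_lit 14847) (nat_lit 15103) (G29_56)
 (G29_57)
 (G29_58)
 (G29_59))
 (q4 (nat_lit 15615) (nat_lit 15871) (nat_lit 16127) (G29_60)
 (G29_61)
 (G29_62)
 (G29_63))))
 (q4 (nat_lit 17407) (nat_lit 18431) (nat_lit 19455) (q4 (nat_lit 16639) (nat_lit 16895) (nat_lit 17151) (G29_64)
 (G29_65)
 (G29_66)
 (G29_67))
 (q4 (nat_lit 17663) (nat_lit 17919) (nat_lit 18175) (G29_68)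
 (G29_69)
 (G29_70)
 (G29_71))
 (G29_72)
 (z0))
 (z0)
 (z0)


end Pool.Agent.P.MP_7b3100_nt.B7
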