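import Pool.Agent.P.MP_7b3100_nt.B7.D31p0
import Pool.Agent.P.MP_7b3100_nt.B7.D31p1
import Pool.Agent.P.MP_7b3100_nt.B7.D31p2
import Pool.Agent.P.MP_7b3100_nt.B7.D31p3

/-! Data: a graph table. -/

set_option autoImplicit false

namespace Pool.Agent.P.MP_7b3100_nt.B7

noncomputable def G31 : Nat → Nat :=
 q4 (nat_lit 4095) (nat_lit 8191) (nat_lit 12287) (q4 (nat_lit 1023) (nat_lit 2047) (nat_lit 3071) (q4 (nat_lit 255) (nat_lit 511) (nat_lit 767) (G31_0)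
 (G31_1)
 (G31_2)
 (G31_3))
 (q4 (nat_lit 1279) (nat_lit 1535) (nat_lit 1791) (G31_4)
 (G31_5)
 (G31_6)
 (G31_7))
 (q4 (nat_lit 2303) (nat_lit 2559) (nat_lit 2815) (G31_8)
 (G31_9)
 (G31_10)
 (G31_11))
 (q4 (nat_lit 3327) (nat_lit 3583) (nat_lit 3839) (G31_12)
 (G31_13)
 (G31_14)
 (G31_15)))
 (q4 (nat_lit 5119) (nat_lit 6143) (nat_lit 7167) (q4 (nat_lit 4351) (nat_lit 4607) (nat_lit 4863) (G31_16)
 (G31_17)
 (G31_18)
 (G31_19))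
 (q4 (nat_lit 5375) (nat_lit 5631) (nat_lit 5887) (G31_20)
 (G31_21)
 (G31_22)
 (G31_23))
 (q4 (nat_lit 6399) (nat_lit 6655) (nat_lit 6911) (G31_24)
 (G31_25)
 (G31_26)
 (G31_27))
 (q4 (nat_lit 7423) (nat_lit 7679) (nat_lit 7935) (G31_28)
 (G31_29)
 (G31_30)
 (G31_31)))
 (G31_32)
 (z0)


end Pool.Agent.P.MP_7b3100_nt.B7
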