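import Pool.Agent.P.MP_7b3100_nt.B7.Bits

/-! From the graph of one level to the graph of the next level. -/

set_option autoImplicit false

namespace Pool.Agent.P.MP_7b3100_nt.B7

variable {y : ℕ → ℤ}

/-- the walk goes along the edge `c` of the record `R` at time `t` -/
def Step (y : ℕ → ℤ) (t R c : ℕ) : Prop :=
  0 < ln R c ∧ y (t + ln R c) = 7 ^ ln R c * y t + dv R c

/-- a tail of the walk follows an infinite path in the graph with nodes below `n` -/
def Fol (y : ℕ → ℤ) (n : ℕ) (G : ℕ → ℕ) : Prop :=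
  ∃ P : ℕ → ℕ → Prop, (∃ t u, P t u) ∧ ∀ t u, P t u → u < n ∧
    ∃ c < 2, Step y t (G u) c ∧ P (t + ln (G u) c) (tg (G u) c)

lemma chain_sound {G : ℕ → ℕ} {q oT LT ET : ℕ} (hq : 0 < q) {Q : ℕ → ℕ → Prop}
    (hQ : ∀ t u, Q t u → ∃ c < 2, fl (G u) (res y q t) / 2 ^ c % 2 = 0 ∧ Step y t (G u) c ∧
      Q (t + ln (G u) c) (tg (G u) c)) {t0 : ℕ} (n : ℕ) :
    ∀ R c r L E : ℕ, chain G q oT LT ET n R c r L E = true → y (t0 + L) = 7 ^ L * y t0 + E →
      res y q (t0 + L) = r → Step y (t0 + L) R c → Q (t0 + L + ln R c) (tg R c) →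
      0 < LT ∧ y (t0 + LT) = 7 ^ LT * y t0 + ET ∧
        ∃ v, Q (t0 + LT) v ∧ oT = v + 65536 * res y q (t0 + LT) := by
  induction n with
  | zero => intro R c r L E h; exact Bool.noConfusion h
  | succ n ih =>
    intro R c r L E h h1 h2 h3 h4
    have e : (force (tg R c) fun v => chain1 G (chain G q oT LT ET n) oT LT ET v
      ((7 ^ ln R c * r + dv R c) % q) (L + ln R c) (E * 7 ^ ln R c + dv R c)) = true := h
    rw [force_eq] at e
    have hs : res y q (t0 + (L + ln R c)) = (7 ^ ln R c * r + dv R c) % q := by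
      rw [← add_assoc, res_step hq h3.2, h2]
    have hy : y (t0 + (L + ln R c)) = 7 ^ (L + ln R c) * y t0 + (E * 7 ^ ln R c + dv R c : ℕ) := by
      rw [← add_assoc, h3.2, h1, pow_add]; push_cast; ring
    rw [← hs] at e
    rw [add_assoc] at h4
    have hpos := h3.1
    generalize E * 7 ^ ln R c + dv R c = E' at e hy
    have hL : 0 < L + ln R c := by omega
    generalize L + ln R c = L' at e hy h4 hL
    generalize tg R c = v at e h4
    have e' : (Nat.rec (Bool.rec false (Bool.rec false (Nat.beq E' ET) (Nat.beq L' LT))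
      (Nat.beq (v + 65536 * res y q (t0 + L')) oT))
      (fun _ _ => chain G q oT LT ET n (G v) ((G v >>> (96 + 6 * res y q (t0 + L'))) % 4 % 2)
        (res y q (t0 + L')) L' E') ((G v >>> (96 + 6 * res y q (t0 + L'))) % 4) : Bool) = true := e
    have ef : (G v >>> (96 + 6 * res y q (t0 + L'))) % 4 = fl (G v) (res y q (t0 + L')) % 4 := by
      rw [fl]; omega
    rw [ef] at e'
    cases he : fl (G v) (res y q (t0 + L')) % 4 with
    | zero =>
      rw [he] at e'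
      obtain ⟨a, b⟩ := brec e'
      obtain ⟨b, d⟩ := brec b
      obtain rfl := Nat.eq_of_beq_eq_true b
      obtain rfl := Nat.eq_of_beq_eq_true d
      exact ⟨hL, hy, v, h4, (Nat.eq_of_beq_eq_true a).symm⟩
    | succ k =>
      obtain ⟨c', hc, h5, h6, h7⟩ := hQ _ _ h4
      have hc' : (k + 1) % 2 = c' := by
        obtain rfl | rfl : c' = 0 ∨ c' = 1 := by omega
        · simp only [pow_zero, Nat.div_one] at h5; omega
        · simp only [pow_one] at h5; omega
      rw [he] at e'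
      have e'' : chain G q oT LT ET n (G v) ((k + 1) % 2) (res y q (t0 + L')) L' E' = true := e'
      rw [hc'] at e''
      exact ih _ _ _ _ _ e'' hy rfl h6 h7

theorem level (h : Sq y) {G H : ℕ → ℕ} {q w n n' : ℕ} (h2 : 2 ≤ q) (h31 : q ≤ 31)
    (h7 : Nat.Coprime q 7) (hn : n ≤ 65536) (hA : ∀ u < n, nodeA G H q w n' u = true)
    (hB : ∀ U < n', nodeB G H q n' U = true) (hF : Fol y n G) : Fol y n' H := by
  obtain ⟨P, ⟨t0, u0, h0⟩, hP⟩ := hF
  have hq : 0 < q := by omega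
  let S : Set ℕ := {c | ∃ t u, P t u ∧ fl (G u) (res y q t) / 4 = c}
  have hbd : BddAbove S := ⟨15, by
    rintro c ⟨t, u, -, rfl⟩
    have : fl (G u) (res y q t) < 64 := Nat.mod_lt _ (by norm_num)
    omega⟩
  obtain ⟨t1, u1, h1, hc⟩ := Nat.sSup_mem (s := S) ⟨_, t0, u0, h0, rfl⟩ hbd
  let Q : ℕ → ℕ → Prop := fun t u => P t u ∧ fl (G u) (res y q t) / 4 = sSup S
  have hQ : ∀ t u, Q t u → ∃ c < 2, fl (G u) (res y q t) / 2 ^ c % 2 = 0 ∧ Step y t (G u) c ∧
      Q (t + ln (G u) c) (tg (G u) c) := by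
    rintro t u ⟨a, b⟩
    obtain ⟨hu, c, hc, hs, hp⟩ := hP t u a
    have e := res_step hq hs.2
    have h3 := (nodeA_sound h31 (hA u hu) (h.res_pos h2 h31 t) (res_lt hq t)).1 c hc fun m => by
      rw [← e]; exact h.alive h2 h31 h7 hs.2 m
    rw [← e] at h3
    have h4 := le_csSup hbd (show _ ∈ S from ⟨_, _, hp, rfl⟩)
    exact ⟨c, hc, by omega, hs, hp, by omega⟩
  by_cases hS : ∃ t u, Q t u ∧ fl (G u) (res y q t) % 4 = 0
  · obtain ⟨t, u, a, b⟩ := hS
    obtain ⟨U, hU, e⟩ := (nodeA_sound h31 (hA u (hP t u a.1).1) (h.res_pos h2 h31 t)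
      (res_lt hq t)).2 b
    refine ⟨fun t U => U < n' ∧ ∃ u, Q t u ∧ og (H U) = u + 65536 * res y q t,
      ⟨t, U, hU, u, a, e⟩, ?_⟩
    rintro t U ⟨hU, u, a, e⟩
    refine ⟨hU, ?_⟩
    have hu := (hP t u a.1).1
    have e1 : (H U >>> 68) % 65536 = u := by rw [og] at e; omega
    have e2 : (H U >>> 84) % 32 = res y q t := by
      rw [og] at e
      rw [show 84 = 68 + 16 by norm_num, Nat.shiftRight_add, Nat.shiftRight_eq_div_pow _ 16]
      omega
    have e3 : (force (tg (H U) 0) fun t1 => force (tg (H U) 1) fun t2 =>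
      force ((H U >>> 68) % 65536) fun u => nodeB1 G H q n' (H U) (ln (H U) 0)
        ((H U >>> 84) % 32) t1 t2 u) = true := hB U hU
    rw [force_eq, force_eq, force_eq, e1, e2] at e3
    have e4 : (Bool.rec false (Bool.rec false (Bool.rec false
      (chain G q (og (H (tg (H U) 0))) (ln (H U) 0) (dv (H U) 0) 64 (G u) 0 (res y q t) 0 0)
      (chain G q (og (H (tg (H U) 1))) (ln (H U) 1) (dv (H U) 1) 64 (G u) 1 (res y q t) 0 0))
      (Nat.ble (tg (H U) 0 + 1) n')) (Nat.ble (tg (H U) 1 + 1) n') : Bool) = true := e3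
    obtain ⟨b1, e5⟩ := brec e4
    obtain ⟨b0, e6⟩ := brec e5
    obtain ⟨c1, c0⟩ := brec e6
    obtain ⟨c, hc, -, h5, h6⟩ := hQ t u a
    obtain rfl | rfl : c = 0 ∨ c = 1 := by omega
    · obtain ⟨x1, x2, x3⟩ := chain_sound hq hQ (t0 := t) 64 _ _ _ _ _ c0 (by simp) rfl h5 h6
      exact ⟨0, hc, ⟨x1, x2⟩, Nat.le_of_ble_eq_true b0, x3⟩
    · obtain ⟨x1, x2, x3⟩ := chain_sound hq hQ (t0 := t) 64 _ _ _ _ _ c1 (by simp) rfl h5 h6
      exact ⟨1, hc, ⟨x1, x2⟩, Nat.le_of_ble_eq_true b1, x3⟩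
  · exfalso
    refine h.no_det (S := Set.Iio n ×ˢ Set.Iio q) ((Set.finite_Iio n).prod (Set.finite_Iio q))
      (f := fun s => (tg (G s.1) (fl (G s.1) s.2 % 2), (7 ^ ln (G s.1) (fl (G s.1) s.2 % 2) * s.2 +
        dv (G s.1) (fl (G s.1) s.2 % 2)) % q))
      (l := fun s => ln (G s.1) (fl (G s.1) s.2 % 2))
      (D := fun s => dv (G s.1) (fl (G s.1) s.2 % 2))
      (P := fun t s => Q t s.1 ∧ res y q t = s.2) (t0 := t1) (s0 := (u1, res y q t1))
      ⟨⟨h1, hc⟩, rfl⟩ ?_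
    rintro t ⟨u, r⟩ ⟨a, rfl⟩
    obtain ⟨c, hc, h4, h5, h6⟩ := hQ t u a
    have h3 : fl (G u) (res y q t) % 4 ≠ 0 := fun b => hS ⟨t, u, a, b⟩
    have hc' : fl (G u) (res y q t) % 2 = c := by
      obtain rfl | rfl : c = 0 ∨ c = 1 := by omega
      · simp only [pow_zero, Nat.div_one] at h4; omega
      · simp only [pow_one] at h4; omega
    simp only [hc']
    exact ⟨⟨(hP t u a.1).1, res_lt hq t⟩, h5.1, h5.2, h6, res_step hq h5.2⟩

end Pool.Agent.P.MP_7b3100_nt.B7
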