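import Pool.Agent.P.MP_7b3100_nt.B7.Runs

/-! There is no infinite walk along primes that appends digits in base seven. -/

set_option autoImplicit false

namespace Pool.Agent.P.MP_7b3100_nt.B7

variable {y : ℕ → ℤ}

lemma start (h : Sq y) : Fol y 2 G5 := by
  have a : ln (G5 0) 0 = 1 ∧ ln (G5 0) 1 = 1 ∧ ln (G5 1) 0 = 1 ∧ ln (G5 1) 1 = 1 ∧
      dv (G5 0) 0 = 6 ∧ dv (G5 0) 1 = 4 ∧ dv (G5 1) 0 = 6 ∧ dv (G5 1) 1 = 2 ∧
      tg (G5 0) 0 = 0 ∧ tg (G5 0) 1 = 1 ∧ tg (G5 1) 0 = 1 ∧ tg (G5 1) 1 = 0 := by decide +kernel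
  obtain ⟨a1, a2, a3, a4, b1, b2, b3, b4, c1, c2, c3, c4⟩ := a
  have n2 : ∀ t, ¬ (2 : ℤ) ∣ y t := h.ndvd (q := 2) le_rfl (by norm_num)
  have n3 : ∀ t, ¬ (3 : ℤ) ∣ y t := h.ndvd (q := 3) (by norm_num) (by norm_num)
  have n7 : ∀ t, ¬ (7 : ℤ) ∣ y t := h.ndvd (q := 7) (by norm_num) (by norm_num)
  refine ⟨fun t u => (u = 0 ∧ y t % 3 = 1) ∨ (u = 1 ∧ y t % 3 = 2), ?_, fun t u hu => ?_⟩
  · have := n3 0
    by_cases h1 : y 0 % 3 = 1
    · exact ⟨0, 0, Or.inl ⟨rfl, h1⟩⟩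
    · exact ⟨0, 1, Or.inr ⟨rfl, by omega⟩⟩
  have d := h.dv t
  have x1 := n2 t
  have x2 := n2 (t + 1)
  have x3 := n3 (t + 1)
  have x4 := n7 (t + 1)
  rcases hu with ⟨rfl, hu⟩ | ⟨rfl, hu⟩
  · refine ⟨by norm_num, ?_⟩
    by_cases h6 : y (t + 1) = 7 * y t + 6
    · refine ⟨0, by norm_num, ?_, ?_⟩
      · rw [Step, a1, b1]; exact ⟨one_pos, by simpa using h6⟩
      · rw [a1, c1]; left; exact ⟨rfl, by omega⟩
    · have h4 : y (t + 1) = 7 * y t + 4 := by omega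
      refine ⟨1, by norm_num, ?_, ?_⟩
      · rw [Step, a2, b2]; exact ⟨one_pos, by simpa using h4⟩
      · rw [a2, c2]; right; exact ⟨rfl, by omega⟩
  · refine ⟨by norm_num, ?_⟩
    by_cases h6 : y (t + 1) = 7 * y t + 6
    · refine ⟨0, by norm_num, ?_, ?_⟩
      · rw [Step, a3, b3]; exact ⟨one_pos, by simpa using h6⟩
      · rw [a3, c3]; right; exact ⟨rfl, by omega⟩
    · have h4 : y (t + 1) = 7 * y t + 2 := by omega
      refine ⟨1, by norm_num, ?_, ?_⟩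
      · rw [Step, a4, b4]; exact ⟨one_pos, by simpa using h4⟩
      · rw [a4, c4]; left; exact ⟨rfl, by omega⟩

lemma lev (h : Sq y) {G H : ℕ → ℕ} {q w n n' : ℕ}
    (hq : 2 ≤ q ∧ q ≤ 31 ∧ Nat.Coprime q 7 ∧ n ≤ 65536) (hA : All (nodeA G H q w n') 0 n)
    (hB : All (nodeB G H q n') 0 n') (hF : Fol y n G) : Fol y n' H :=
  level h hq.1 hq.2.1 hq.2.2.1 hq.2.2.2 (fun u => hA u (Nat.zero_le u))
    (fun u => hB u (Nat.zero_le u)) hF

theorem not_sq (h : Sq y) : False := by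
  have h5 := lev h (by norm_num) a5 b5 (start h)
  have h11 := lev h (by norm_num) a11 b11 h5
  have h13 := lev h (by norm_num) a13 b13 h11
  have h17 := lev h (by norm_num) a17 b17 h13
  have h19 := lev h (by norm_num) a19 b19 h17
  have h23 := lev h (by norm_num) a23 b23 h19
  have h29 := lev h (by norm_num) a29 b29 h23
  obtain ⟨P, ⟨t, u, h0⟩, hP⟩ := lev h (by norm_num) a31 (fun i _ hi => absurd hi (by omega)) h29
  exact absurd (hP t u h0).1 (by omega)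

theorem base_seven {α : ℝ} (hα : α ≠ 0) (N : ℕ) :
    ∃ n ≥ N, 2 ≤ ⌊(7 : ℝ) ^ n * α⌋.natAbs ∧ ¬ ⌊(7 : ℝ) ^ n * α⌋.natAbs.Prime := by
  by_contra hc
  have hp : 0 < |α| := abs_pos.2 hα
  obtain ⟨M, hM⟩ := pow_unbounded_of_one_lt (33 / |α|) (show (1 : ℝ) < 7 by norm_num)
  have big : ∀ n, 31 < ⌊(7 : ℝ) ^ (N + M + n) * α⌋.natAbs := by
    intro n
    have h1 : (7 : ℝ) ^ M ≤ 7 ^ (N + M + n) := pow_le_pow_right₀ (by norm_num) (by omega)
    have h2 : 33 < |(7 : ℝ) ^ (N + M + n) * α| := by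
      rw [abs_mul, abs_of_pos (by positivity)]
      exact (div_lt_iff₀ hp).1 (hM.trans_le h1)
    rcases lt_abs.1 h2 with h3 | h3
    · have : (33 : ℤ) ≤ ⌊(7 : ℝ) ^ (N + M + n) * α⌋ := Int.le_floor.2 (by exact_mod_cast h3.le)
      omega
    · have : ⌊(7 : ℝ) ^ (N + M + n) * α⌋ < -33 := Int.floor_lt.2 (by push_cast; linarith)
      omega
  refine not_sq (y := fun n => ⌊(7 : ℝ) ^ (N + M + n) * α⌋) ⟨fun n => ?_, fun n => ?_, big⟩
  · have := Int.floor_div_natCast ((7 : ℝ) ^ (N + M + (n + 1)) * α) 7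
    rw [show (7 : ℝ) ^ (N + M + (n + 1)) * α / (7 : ℕ) = 7 ^ (N + M + n) * α by
      rw [← add_assoc, pow_succ]; push_cast; ring] at this
    exact this
  · by_contra h1
    have := big n
    exact hc ⟨N + M + n, by omega, by omega, h1⟩

end Pool.Agent.P.MP_7b3100_nt.B7
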