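import Pool.Agent.P.MP_7b3100_nt.B7.D23
import Pool.Agent.P.MP_7b3100_nt.B7.D29
import Pool.Agent.P.MP_7b3100_nt.B7.DS

/-! Runs of the checker. -/

set_option autoImplicit false

namespace Pool.Agent.P.MP_7b3100_nt.B7

theorem a5_0 : loop (nodeA G5 G11 5 4 4) 0 2 = true := by decide +kernel

theorem b5_0 : loop (nodeB G5 G11 5 4) 0 4 = true := by decide +kernel

theorem a11_0 : loop (nodeA G11 G13 11 5 23) 0 4 = true := by decide +kernel

theorem b11_0 : loop (nodeB G11 G13 11 23) 0 23 = true := by decide +kernel

theorem a13_0 : loop (nodeA G13 G17 13 6 129) 0 23 = true := by decide +kernel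

theorem b13_0 : loop (nodeB G13 G17 13 129) 0 129 = true := by decide +kernel

theorem a17_0 : loop (nodeA G17 G19 17 8 843) 0 129 = true := by decide +kernel

theorem b17_0 : loop (nodeB G17 G19 17 843) 0 843 = true := by decide +kernel

theorem a19_0 : loop (nodeA G19 G23 19 9 4552) 0 300 = true := by decide +kernel

theorem a19_1 : loop (nodeA G19 G23 19 9 4552) 300 300 = true := by decide +kernel

theorem a19_2 : loop (nodeA G19 G23 19 9 4552) 600 243 = true := by decide +kernel

theorem b19_0 : loop (nodeB G19 G23 19 4552) 0 1000 = true := by decide +kernel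

theorem b19_1 : loop (nodeB G19 G23 19 4552) 1000 1000 = true := by decide +kernel

theorem b19_2 : loop (nodeB G19 G23 19 4552) 2000 1000 = true := by decide +kernel

theorem b19_3 : loop (nodeB G19 G23 19 4552) 3000 1000 = true := by decide +kernel

theorem b19_4 : loop (nodeB G19 G23 19 4552) 4000 552 = true := by decide +kernel

theorem a23_0 : loop (nodeA G23 G29 23 11 18545) 0 400 = true := by decide +kernel

theorem a23_1 : loop (nodeA G23 G29 23 11 18545) 400 400 = true := by decide +kernel

theorem a23_2 : loop (nodeA G23 G29 23 11 18545) 800 400 = true := by decide +kernel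

theorem a23_3 : loop (nodeA G23 G29 23 11 18545) 1200 400 = true := by decide +kernel

theorem a23_4 : loop (nodeA G23 G29 23 11 18545) 1600 400 = true := by decide +kernel

theorem a23_5 : loop (nodeA G23 G29 23 11 18545) 2000 400 = true := by decide +kernel

theorem a23_6 : loop (nodeA G23 G29 23 11 18545) 2400 400 = true := by decide +kernel

end Pool.Agent.P.MP_7b3100_nt.B7
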