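import Pool.Agent.P.MP_7b3100_nt.B7.D23
import Pool.Agent.P.MP_7b3100_nt.B7.D29

/-! Runs of the checker. -/

set_option autoImplicit false

namespace Pool.Agent.P.MP_7b3100_nt.B7

theorem a23_7 : loop (nodeA G23 G29 23 11 18545) 2800 400 = true := by decide +kernel

theorem a23_8 : loop (nodeA G23 G29 23 11 18545) 3200 400 = true := by decide +kernel

theorem a23_9 : loop (nodeA G23 G29 23 11 18545) 3600 400 = true := by decide +kernel

theorem a23_10 : loop (nodeA G23 G29 23 11 18545) 4000 400 = true := by decide +kernel

theorem a23_11 : loop (nodeA G23 G29 23 11 18545) 4400 152 = true := by decide +kernel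

theorem b23_0 : loop (nodeB G23 G29 23 18545) 0 1000 = true := by decide +kernel

theorem b23_1 : loop (nodeB G23 G29 23 18545) 1000 1000 = true := by decide +kernel

theorem b23_2 : loop (nodeB G23 G29 23 18545) 2000 1000 = true := by decide +kernel

theorem b23_3 : loop (nodeB G23 G29 23 18545) 3000 1000 = true := by decide +kernel

theorem b23_4 : loop (nodeB G23 G29 23 18545) 4000 1000 = true := by decide +kernel

theorem b23_5 : loop (nodeB G23 G29 23 18545) 5000 1000 = true := by decide +kernel

theorem b23_6 : loop (nodeB G23 G29 23 18545) 6000 1000 = true := by decide +kernel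

theorem b23_7 : loop (nodeB G23 G29 23 18545) 7000 1000 = true := by decide +kernel

theorem b23_8 : loop (nodeB G23 G29 23 18545) 8000 1000 = true := by decide +kernel

end Pool.Agent.P.MP_7b3100_nt.B7
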