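import Pool.Agent.P.MP_7b3100_nt.B7.D31

/-! Runs of the checker. -/

set_option autoImplicit false

namespace Pool.Agent.P.MP_7b3100_nt.B7

theorem a31_19 : loop (nodeA G31 z0 31 10 0) 7600 400 = true := by decide +kernel

theorem a31_20 : loop (nodeA G31 z0 31 10 0) 8000 238 = true := by decide +kernel

end Pool.Agent.P.MP_7b3100_nt.B7
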