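import Pool.Agent.P.MP_7b3100_nt.B7.D23
import Pool.Agent.P.MP_7b3100_nt.B7.D29
import Pool.Agent.P.MP_7b3100_nt.B7.D31

/-! Runs of the checker. -/

set_option autoImplicit false

namespace Pool.Agent.P.MP_7b3100_nt.B7

theorem b23_9 : loop (nodeB G23 G29 23 18545) 9000 1000 = true := by decide +kernel

theorem b23_10 : loop (nodeB G23 G29 23 18545) 10000 1000 = true := by decide +kernel

theorem b23_11 : loop (nodeB G23 G29 23 18545) 11000 1000 = true := by decide +kernel

theorem b23_12 : loop (nodeB G23 G29 23 18545) 12000 1000 = true := by decide +kernel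

theorem b23_13 : loop (nodeB G23 G29 23 18545) 13000 1000 = true := by decide +kernel

theorem b23_14 : loop (nodeB G23 G29 23 18545) 14000 1000 = true := by decide +kernel

theorem b23_15 : loop (nodeB G23 G29 23 18545) 15000 1000 = true := by decide +kernel

theorem b23_16 : loop (nodeB G23 G29 23 18545) 16000 1000 = true := by decide +kernel

theorem b23_17 : loop (nodeB G23 G29 23 18545) 17000 1000 = true := by decide +kernel

theorem b23_18 : loop (nodeB G23 G29 23 18545) 18000 545 = true := by decide +kernel

theorem a29_0 : loop (nodeA G29 G31 29 7 8238) 0 500 = true := by decide +kernel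

theorem a29_1 : loop (nodeA G29 G31 29 7 8238) 500 500 = true := by decide +kernel

theorem a29_2 : loop (nodeA G29 G31 29 7 8238) 1000 500 = true := by decide +kernel

end Pool.Agent.P.MP_7b3100_nt.B7
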