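import Pool.Agent.P.MP_7b3100_nt.B7.D29
import Pool.Agent.P.MP_7b3100_nt.B7.D31

/-! Runs of the checker. -/

set_option autoImplicit false

namespace Pool.Agent.P.MP_7b3100_nt.B7

theorem a29_3 : loop (nodeA G29 G31 29 7 8238) 1500 500 = true := by decide +kernel

theorem a29_4 : loop (nodeA G29 G31 29 7 8238) 2000 500 = true := by decide +kernel

theorem a29_5 : loop (nodeA G29 G31 29 7 8238) 2500 500 = true := by decide +kernel

theorem a29_6 : loop (nodeA G29 G31 29 7 8238) 3000 500 = true := by decide +kernel

theorem a29_7 : loop (nodeA G29 G31 29 7 8238) 3500 500 = true := by decide +kernel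

theorem a29_8 : loop (nodeA G29 G31 29 7 8238) 4000 500 = true := by decide +kernel

theorem a29_9 : loop (nodeA G29 G31 29 7 8238) 4500 500 = true := by decide +kernel

theorem a29_10 : loop (nodeA G29 G31 29 7 8238) 5000 500 = true := by decide +kernel

theorem a29_11 : loop (nodeA G29 G31 29 7 8238) 5500 500 = true := by decide +kernel

theorem a29_12 : loop (nodeA G29 G31 29 7 8238) 6000 500 = true := by decide +kernel

end Pool.Agent.P.MP_7b3100_nt.B7
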