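import Pool.Agent.P.MP_7b3100_nt.B7.D29
import Pool.Agent.P.MP_7b3100_nt.B7.D31

/-! Runs of the checker. -/

set_option autoImplicit false

namespace Pool.Agent.P.MP_7b3100_nt.B7

theorem a29_13 : loop (nodeA G29 G31 29 7 8238) 6500 500 = true := by decide +kernel

theorem a29_14 : loop (nodeA G29 G31 29 7 8238) 7000 500 = true := by decide +kernel

theorem a29_15 : loop (nodeA G29 G31 29 7 8238) 7500 500 = true := by decide +kernel

theorem a29_16 : loop (nodeA G29 G31 29 7 8238) 8000 500 = true := by decide +kernel

theorem a29_17 : loop (nodeA G29 G31 29 7 8238) 8500 500 = true := by decide +kernel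

theorem a29_18 : loop (nodeA G29 G31 29 7 8238) 9000 500 = true := by decide +kernel

theorem a29_19 : loop (nodeA G29 G31 29 7 8238) 9500 500 = true := by decide +kernel

theorem a29_20 : loop (nodeA G29 G31 29 7 8238) 10000 500 = true := by decide +kernel

theorem a29_21 : loop (nodeA G29 G31 29 7 8238) 10500 500 = true := by decide +kernel

theorem a29_22 : loop (nodeA G29 G31 29 7 8238) 11000 500 = true := by decide +kernel

end Pool.Agent.P.MP_7b3100_nt.B7
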