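import Pool.Agent.P.MP_7b3100_nt.B7.D29
import Pool.Agent.P.MP_7b3100_nt.B7.D31

/-! Runs of the checker. -/

set_option autoImplicit false

namespace Pool.Agent.P.MP_7b3100_nt.B7

theorem a29_23 : loop (nodeA G29 G31 29 7 8238) 11500 500 = true := by decide +kernel

theorem a29_24 : loop (nodeA G29 G31 29 7 8238) 12000 500 = true := by decide +kernel

theorem a29_25 : loop (nodeA G29 G31 29 7 8238) 12500 500 = true := by decide +kernel

theorem a29_26 : loop (nodeA G29 G31 29 7 8238) 13000 500 = true := by decide +kernel

theorem a29_27 : loop (nodeA G29 G31 29 7 8238) 13500 500 = true := by decide +kernel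

theorem a29_28 : loop (nodeA G29 G31 29 7 8238) 14000 500 = true := by decide +kernel

theorem a29_29 : loop (nodeA G29 G31 29 7 8238) 14500 500 = true := by decide +kernel

theorem a29_30 : loop (nodeA G29 G31 29 7 8238) 15000 500 = true := by decide +kernel

theorem a29_31 : loop (nodeA G29 G31 29 7 8238) 15500 500 = true := by decide +kernel

theorem a29_32 : loop (nodeA G29 G31 29 7 8238) 16000 500 = true := by decide +kernel

end Pool.Agent.P.MP_7b3100_nt.B7
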