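import Pool.Agent.P.MP_7b3100_nt.B7.D29
import Pool.Agent.P.MP_7b3100_nt.B7.D31

/-! Runs of the checker. -/

set_option autoImplicit false

namespace Pool.Agent.P.MP_7b3100_nt.B7

theorem a29_33 : loop (nodeA G29 G31 29 7 8238) 16500 500 = true := by decide +kernel

theorem a29_34 : loop (nodeA G29 G31 29 7 8238) 17000 500 = true := by decide +kernel

theorem a29_35 : loop (nodeA G29 G31 29 7 8238) 17500 500 = true := by decide +kernel

theorem a29_36 : loop (nodeA G29 G31 29 7 8238) 18000 500 = true := by decide +kernel

theorem a29_37 : loop (nodeA G29 G31 29 7 8238) 18500 45 = true := by decide +kernel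

theorem b29_0 : loop (nodeB G29 G31 29 8238) 0 400 = true := by decide +kernel

theorem b29_1 : loop (nodeB G29 G31 29 8238) 400 400 = true := by decide +kernel

theorem b29_2 : loop (nodeB G29 G31 29 8238) 800 400 = true := by decide +kernel

theorem b29_3 : loop (nodeB G29 G31 29 8238) 1200 400 = true := by decide +kernel

theorem b29_4 : loop (nodeB G29 G31 29 8238) 1600 400 = true := by decide +kernel

theorem b29_5 : loop (nodeB G29 G31 29 8238) 2000 400 = true := by decide +kernel

theorem b29_6 : loop (nodeB G29 G31 29 8238) 2400 400 = true := by decide +kernel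

end Pool.Agent.P.MP_7b3100_nt.B7
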