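import Pool.Agent.P.MP_7b3100_nt.B7.D29
import Pool.Agent.P.MP_7b3100_nt.B7.D31

/-! Runs of the checker. -/

set_option autoImplicit false

namespace Pool.Agent.P.MP_7b3100_nt.B7

theorem b29_7 : loop (nodeB G29 G31 29 8238) 2800 400 = true := by decide +kernel

theorem b29_8 : loop (nodeB G29 G31 29 8238) 3200 400 = true := by decide +kernel

theorem b29_9 : loop (nodeB G29 G31 29 8238) 3600 400 = true := by decide +kernel

theorem b29_10 : loop (nodeB G29 G31 29 8238) 4000 400 = true := by decide +kernel

theorem b29_11 : loop (nodeB G29 G31 29 8238) 4400 400 = true := by decide +kernel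

theorem b29_12 : loop (nodeB G29 G31 29 8238) 4800 400 = true := by decide +kernel

theorem b29_13 : loop (nodeB G29 G31 29 8238) 5200 400 = true := by decide +kernel

theorem b29_14 : loop (nodeB G29 G31 29 8238) 5600 400 = true := by decide +kernel

theorem b29_15 : loop (nodeB G29 G31 29 8238) 6000 400 = true := by decide +kernel

theorem b29_16 : loop (nodeB G29 G31 29 8238) 6400 400 = true := by decide +kernel

theorem b29_17 : loop (nodeB G29 G31 29 8238) 6800 400 = true := by decide +kernel

theorem b29_18 : loop (nodeB G29 G31 29 8238) 7200 400 = true := by decide +kernel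

theorem b29_19 : loop (nodeB G29 G31 29 8238) 7600 400 = true := by decide +kernel

end Pool.Agent.P.MP_7b3100_nt.B7
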