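import Pool.Agent.P.MP_7b3100_nt.B7.D29
import Pool.Agent.P.MP_7b3100_nt.B7.D31

/-! Runs of the checker. -/

set_option autoImplicit false

namespace Pool.Agent.P.MP_7b3100_nt.B7

theorem b29_20 : loop (nodeB G29 G31 29 8238) 8000 238 = true := by decide +kernel

theorem a31_0 : loop (nodeA G31 z0 31 10 0) 0 400 = true := by decide +kernel

theorem a31_1 : loop (nodeA G31 z0 31 10 0) 400 400 = true := by decide +kernel

theorem a31_2 : loop (nodeA G31 z0 31 10 0) 800 400 = true := by decide +kernel

theorem a31_3 : loop (nodeA G31 z0 31 10 0) 1200 400 = true := by decide +kernel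

theorem a31_4 : loop (nodeA G31 z0 31 10 0) 1600 400 = true := by decide +kernel

theorem a31_5 : loop (nodeA G31 z0 31 10 0) 2000 400 = true := by decide +kernel

theorem a31_6 : loop (nodeA G31 z0 31 10 0) 2400 400 = true := by decide +kernel

theorem a31_7 : loop (nodeA G31 z0 31 10 0) 2800 400 = true := by decide +kernel

theorem a31_8 : loop (nodeA G31 z0 31 10 0) 3200 400 = true := by decide +kernel

end Pool.Agent.P.MP_7b3100_nt.B7
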