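import Pool.Agent.P.MP_7b3100_nt.B7.Level
import Pool.Agent.P.MP_7b3100_nt.B7.R0
import Pool.Agent.P.MP_7b3100_nt.B7.R1
import Pool.Agent.P.MP_7b3100_nt.B7.R2
import Pool.Agent.P.MP_7b3100_nt.B7.R3
import Pool.Agent.P.MP_7b3100_nt.B7.R4
import Pool.Agent.P.MP_7b3100_nt.B7.R5
import Pool.Agent.P.MP_7b3100_nt.B7.R6
import Pool.Agent.P.MP_7b3100_nt.B7.R7
import Pool.Agent.P.MP_7b3100_nt.B7.R8
import Pool.Agent.P.MP_7b3100_nt.B7.R9
import Pool.Agent.P.MP_7b3100_nt.B7.R10

/-! The runs of the checker, put together. -/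

set_option autoImplicit false

namespace Pool.Agent.P.MP_7b3100_nt.B7

/-- the test holds between `lo` and `hi` -/
def All (f : ℕ → Bool) (lo hi : ℕ) : Prop := ∀ i, lo ≤ i → i < hi → f i = true

lemma All.of_loop {f : ℕ → Bool} {lo n hi : ℕ} (h : loop f lo n = true) (e : lo + n = hi) :
    All f lo hi := fun _ h1 h2 => loop_sound h h1 (e ▸ h2)

lemma All.trans {f : ℕ → Bool} {a b c : ℕ} (h1 : All f a b) (h2 : All f b c) : All f a c :=
  fun i x1 x2 => (lt_or_ge i b).elim (h1 i x1) fun x3 => h2 i x3 x2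

theorem a5 : All (nodeA G5 G11 5 4 4) 0 2 :=
  (All.of_loop a5_0 (hi := 2) rfl)

theorem b5 : All (nodeB G5 G11 5 4) 0 4 :=
  (All.of_loop b5_0 (hi := 4) rfl)

theorem a11 : All (nodeA G11 G13 11 5 23) 0 4 :=
  (All.of_loop a11_0 (hi := 4) rfl)

theorem b11 : All (nodeB G11 G13 11 23) 0 23 :=
  (All.of_loop b11_0 (hi := 23) rfl)

theorem a13 : All (nodeA G13 G17 13 6 129) 0 23 :=
  (All.of_loop a13_0 (hi := 23) rfl)

theorem b13 : All (nodeB G13 G17 13 129) 0 129 :=
  (All.of_loop b13_0 (hi := 129) rfl)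

theorem a17 : All (nodeA G17 G19 17 8 843) 0 129 :=
  (All.of_loop a17_0 (hi := 129) rfl)

theorem b17 : All (nodeB G17 G19 17 843) 0 843 :=
  (All.of_loop b17_0 (hi := 843) rfl)

theorem a19 : All (nodeA G19 G23 19 9 4552) 0 843 :=
  (((All.of_loop a19_0 (hi := 300) rfl).trans
    (All.of_loop a19_1 (hi := 600) rfl)).trans
    (All.of_loop a19_2 (hi := 843) rfl))

theorem b19 : All (nodeB G19 G23 19 4552) 0 4552 :=
  (((((All.of_loop b19_0 (hi := 1000) rfl).trans
    (All.of_loop b19_1 (hi := 2000) rfl)).trans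
    (All.of_loop b19_2 (hi := 3000) rfl)).trans
    (All.of_loop b19_3 (hi := 4000) rfl)).trans
    (All.of_loop b19_4 (hi := 4552) rfl))

theorem a23 : All (nodeA G23 G29 23 11 18545) 0 4552 :=
  ((((((((((((All.of_loop a23_0 (hi := 400) rfl).trans
    (All.of_loop a23_1 (hi := 800) rfl)).trans
    (All.of_loop a23_2 (hi := 1200) rfl)).trans
    (All.of_loop a23_3 (hi := 1600) rfl)).trans
    (All.of_loop a23_4 (hi := 2000) rfl)).trans
    (All.of_loop a23_5 (hi := 2400) rfl)).trans
    (All.of_loop a23_6 (hi := 2800) rfl)).trans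
    (All.of_loop a23_7 (hi := 3200) rfl)).trans
    (All.of_loop a23_8 (hi := 3600) rfl)).trans
    (All.of_loop a23_9 (hi := 4000) rfl)).trans
    (All.of_loop a23_10 (hi := 4400) rfl)).trans
    (All.of_loop a23_11 (hi := 4552) rfl))

theorem b23 : All (nodeB G23 G29 23 18545) 0 18545 :=
  (((((((((((((((((((All.of_loop b23_0 (hi := 1000) rfl).trans
    (All.of_loop b23_1 (hi := 2000) rfl)).trans
    (All.of_loop b23_2 (hi := 3000) rfl)).trans
    (All.of_loop b23_3 (hi := 4000) rfl)).trans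
    (All.of_loop b23_4 (hi := 5000) rfl)).trans
    (All.of_loop b23_5 (hi := 6000) rfl)).trans
    (All.of_loop b23_6 (hi := 7000) rfl)).trans
    (All.of_loop b23_7 (hi := 8000) rfl)).trans
    (All.of_loop b23_8 (hi := 9000) rfl)).trans
    (All.of_loop b23_9 (hi := 10000) rfl)).trans
    (All.of_loop b23_10 (hi := 11000) rfl)).trans
    (All.of_loop b23_11 (hi := 12000) rfl)).trans
    (All.of_loop b23_12 (hi := 13000) rfl)).trans
    (All.of_loop b23_13 (hi := 14000) rfl)).trans
    (All.of_loop b23_14 (hi := 15000) rfl)).trans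
    (All.of_loop b23_15 (hi := 16000) rfl)).trans
    (All.of_loop b23_16 (hi := 17000) rfl)).trans
    (All.of_loop b23_17 (hi := 18000) rfl)).trans
    (All.of_loop b23_18 (hi := 18545) rfl))

theorem a29 : All (nodeA G29 G31 29 7 8238) 0 18545 :=
  ((((((((((((((((((((((((((((((((((((((All.of_loop a29_0 (hi := 500) rfl).trans
    (All.of_loop a29_1 (hi := 1000) rfl)).trans
    (All.of_loop a29_2 (hi := 1500) rfl)).trans
    (All.of_loop a29_3 (hi := 2000) rfl)).trans
    (All.of_loop a29_4 (hi := 2500) rfl)).trans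
    (All.of_loop a29_5 (hi := 3000) rfl)).trans
    (All.of_loop a29_6 (hi := 3500) rfl)).trans
    (All.of_loop a29_7 (hi := 4000) rfl)).trans
    (All.of_loop a29_8 (hi := 4500) rfl)).trans
    (All.of_loop a29_9 (hi := 5000) rfl)).trans
    (All.of_loop a29_10 (hi := 5500) rfl)).trans
    (All.of_loop a29_11 (hi := 6000) rfl)).trans
    (All.of_loop a29_12 (hi := 6500) rfl)).trans
    (All.of_loop a29_13 (hi := 7000) rfl)).trans
    (All.of_loop a29_14 (hi := 7500) rfl)).trans
    (All.of_loop a29_15 (hi := 8000) rfl)).trans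
    (All.of_loop a29_16 (hi := 8500) rfl)).trans
    (All.of_loop a29_17 (hi := 9000) rfl)).trans
    (All.of_loop a29_18 (hi := 9500) rfl)).trans
    (All.of_loop a29_19 (hi := 10000) rfl)).trans
    (All.of_loop a29_20 (hi := 10500) rfl)).trans
    (All.of_loop a29_21 (hi := 11000) rfl)).trans
    (All.of_loop a29_22 (hi := 11500) rfl)).trans
    (All.of_loop a29_23 (hi := 12000) rfl)).trans
    (All.of_loop a29_24 (hi := 12500) rfl)).trans
    (All.of_loop a29_25 (hi := 13000) rfl)).trans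
    (All.of_loop a29_26 (hi := 13500) rfl)).trans
    (All.of_loop a29_27 (hi := 14000) rfl)).trans
    (All.of_loop a29_28 (hi := 14500) rfl)).trans
    (All.of_loop a29_29 (hi := 15000) rfl)).trans
    (All.of_loop a29_30 (hi := 15500) rfl)).trans
    (All.of_loop a29_31 (hi := 16000) rfl)).trans
    (All.of_loop a29_32 (hi := 16500) rfl)).trans
    (All.of_loop a29_33 (hi := 17000) rfl)).trans
    (All.of_loop a29_34 (hi := 17500) rfl)).trans
    (All.of_loop a29_35 (hi := 18000) rfl)).trans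
    (All.of_loop a29_36 (hi := 18500) rfl)).trans
    (All.of_loop a29_37 (hi := 18545) rfl))

theorem b29 : All (nodeB G29 G31 29 8238) 0 8238 :=
  (((((((((((((((((((((All.of_loop b29_0 (hi := 400) rfl).trans
    (All.of_loop b29_1 (hi := 800) rfl)).trans
    (All.of_loop b29_2 (hi := 1200) rfl)).trans
    (All.of_loop b29_3 (hi := 1600) rfl)).trans
    (All.of_loop b29_4 (hi := 2000) rfl)).trans
    (All.of_loop b29_5 (hi := 2400) rfl)).trans
    (All.of_loop b29_6 (hi := 2800) rfl)).trans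
    (All.of_loop b29_7 (hi := 3200) rfl)).trans
    (All.of_loop b29_8 (hi := 3600) rfl)).trans
    (All.of_loop b29_9 (hi := 4000) rfl)).trans
    (All.of_loop b29_10 (hi := 4400) rfl)).trans
    (All.of_loop b29_11 (hi := 4800) rfl)).trans
    (All.of_loop b29_12 (hi := 5200) rfl)).trans
    (All.of_loop b29_13 (hi := 5600) rfl)).trans
    (All.of_loop b29_14 (hi := 6000) rfl)).trans
    (All.of_loop b29_15 (hi := 6400) rfl)).trans
    (All.of_loop b29_16 (hi := 6800) rfl)).trans
    (All.of_loop b29_17 (hi := 7200) rfl)).trans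
    (All.of_loop b29_18 (hi := 7600) rfl)).trans
    (All.of_loop b29_19 (hi := 8000) rfl)).trans
    (All.of_loop b29_20 (hi := 8238) rfl))

theorem a31 : All (nodeA G31 z0 31 10 0) 0 8238 :=
  (((((((((((((((((((((All.of_loop a31_0 (hi := 400) rfl).trans
    (All.of_loop a31_1 (hi := 800) rfl)).trans
    (All.of_loop a31_2 (hi := 1200) rfl)).trans
    (All.of_loop a31_3 (hi := 1600) rfl)).trans
    (All.of_loop a31_4 (hi := 2000) rfl)).trans
    (All.of_loop a31_5 (hi := 2400) rfl)).trans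
    (All.of_loop a31_6 (hi := 2800) rfl)).trans
    (All.of_loop a31_7 (hi := 3200) rfl)).trans
    (All.of_loop a31_8 (hi := 3600) rfl)).trans
    (All.of_loop a31_9 (hi := 4000) rfl)).trans
    (All.of_loop a31_10 (hi := 4400) rfl)).trans
    (All.of_loop a31_11 (hi := 4800) rfl)).trans
    (All.of_loop a31_12 (hi := 5200) rfl)).trans
    (All.of_loop a31_13 (hi := 5600) rfl)).trans
    (All.of_loop a31_14 (hi := 6000) rfl)).trans
    (All.of_loop a31_15 (hi := 6400) rfl)).trans
    (All.of_loop a31_16 (hi := 6800) rfl)).trans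
    (All.of_loop a31_17 (hi := 7200) rfl)).trans
    (All.of_loop a31_18 (hi := 7600) rfl)).trans
    (All.of_loop a31_19 (hi := 8000) rfl)).trans
    (All.of_loop a31_20 (hi := 8238) rfl))

end Pool.Agent.P.MP_7b3100_nt.B7
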